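import Pool.Agent.Helper17.Rsvd

/-! Oblivious subspace injections with constant failure probability do not give relative error
randomized SVD. -/

namespace Pool.Agent.Results.MP_082b65_an.NoRelativeError

open Finset Matrix
open Pool.Agent.Helper17.Rsvd

/-- Squared Euclidean length. -/
def nsq {ι : Type} [Fintype ι] (x : ι → ℝ) : ℝ := ∑ i, x i ^ 2

/-- Frobenius norm. -/
noncomputable def frob {m n : Type} [Fintype m] [Fintype n] (M : Matrix m n ℝ) : ℝ :=
  √(∑ i, ∑ j, M i j ^ 2)

/-- The random matrix `Ω w`, with `w` uniformly distributed in the finite set `W`, is an oblivious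
subspace injection with dimension `r`, injectivity `α` and failure probability `δ`. -/
structure IsOSI {W d k : Type} [Fintype W] [Fintype d] [Fintype k] (Ω : W → Matrix d k ℝ)
    (r : ℕ) (α δ : ℝ) : Prop where
  isotropy : ∀ x : d → ℝ, (∑ w, nsq ((Ω w)ᵀ *ᵥ x)) / Fintype.card W = nsq x
  injectivity : ∀ V : Submodule ℝ (d → ℝ), Module.finrank ℝ V = r →
    (1 - δ) * Fintype.card W ≤ (Nat.card {w : W // ∀ x ∈ V, α * nsq x ≤ nsq ((Ω w)ᵀ *ᵥ x)} : ℝ)

/-- `X` is the Moore-Penrose pseudoinverse of `B`. -/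
def IsPinv {m n : Type} [Fintype m] [Fintype n] (B : Matrix m n ℝ) (X : Matrix n m ℝ) : Prop :=
  B * X * B = B ∧ X * B * X = X ∧ (B * X)ᵀ = B * X ∧ (X * B)ᵀ = X * B

/-- The Frobenius error of a best approximation of rank at most `r`. -/
noncomputable def bestErr {m n : Type} [Fintype m] [Fintype n] (r : ℕ) (A : Matrix m n ℝ) : ℝ :=
  ⨅ Z : {Z : Matrix m n ℝ // Z.rank ≤ r}, frob (A - Z.1)

/-! ### proofs -/

lemma diag_idem {D : Type} [Fintype D] {R : Matrix D D ℝ} (h1 : Rᵀ = R) (h2 : R * R = R) (j : D) :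
    ∑ i, R i j ^ 2 = R j j := by
  have h3 : (R * R) j j = R j j := by rw [h2]
  rw [← h3, Matrix.mul_apply]
  apply Finset.sum_congr rfl
  intro i _
  have h4 : R j i = R i j := by
    have := congrFun (congrFun h1 i) j
    rw [Matrix.transpose_apply] at this
    exact this
  rw [h4]; ring

lemma diag_le_one {D : Type} [Fintype D] {R : Matrix D D ℝ} (h1 : Rᵀ = R) (h2 : R * R = R) (j : D) :
    R j j ≤ 1 := by
  have h3 := diag_idem h1 h2 j
  have h4 : R j j ^ 2 ≤ ∑ i, R i j ^ 2 :=
    Finset.single_le_sum (f := fun i => R i j ^ 2) (fun _ _ => sq_nonneg _) (Finset.mem_univ j)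
  nlinarith

variable (p : ℕ) [Fact p.Prime]

abbrev Idx := Option (Fin 4 → ZMod p)
abbrev Col := ZMod p × ZMod p

noncomputable def Om (s : ℝ) (σ : Idx p → Bool) : Matrix (Idx p) (Col p) ℝ :=
  Matrix.of fun j c => s * sg (σ j) * tau p j c

noncomputable def av : Idx p → ℝ
  | none => √((p : ℝ) ^ 3)
  | some _ => 1

lemma av_sq : av p none ^ 2 = (p : ℝ) ^ 3 := Real.sq_sqrt (by positivity)

lemma det_bound (hp4 : 4 ≤ p) (σ : Idx p → Bool) (s : ℝ) (X : Matrix (Col p) (Idx p) ℝ)
    (hX : IsPinv (diagonal (av p) * Om p s σ) X) :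
    (p : ℝ) ^ 4 + (p : ℝ) ^ 3 / 4 ≤ ∑ i, ∑ j,
      (diagonal (av p) - (diagonal (av p) * Om p s σ) * X * diagonal (av p)) i j ^ 2 := by
  have hp : (4 : ℝ) ≤ p := by exact_mod_cast hp4
  obtain ⟨h1, h2, h3, h4⟩ := hX
  set B := diagonal (av p) * Om p s σ with hB
  set P := B * X with hP
  set E := X * B with hE
  have hBij : ∀ i c, B i c = av p i * (s * sg (σ i) * tau p i c) := by
    intro i c
    rw [hB, Matrix.diagonal_mul]; rfl
  have hPP : P * P = P := by
    rw [hP, ← Matrix.mul_assoc, h1]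
  have hEE : E * E = E := by
    rw [hE, ← Matrix.mul_assoc, h2]
  set R : Matrix (Idx p) (Idx p) ℝ := 1 - P with hR
  have hRT : Rᵀ = R := by
    rw [hR, Matrix.transpose_sub, Matrix.transpose_one, h3]
  have hRR : R * R = R := by
    rw [hR, Matrix.mul_sub, Matrix.sub_mul, Matrix.sub_mul, hPP]
    simp
  have htr : ∑ j, P j j ≤ (p : ℝ) ^ 2 := by
    have e1 : ∑ j, P j j = ∑ c, E c c := by
      have := Matrix.trace_mul_comm B X
      exact this
    rw [e1]
    calc ∑ c, E c c ≤ ∑ _c : Col p, (1 : ℝ) := Finset.sum_le_sum fun c _ => diag_le_one h4 hEE c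
      _ = (p : ℝ) ^ 2 := by
        rw [Finset.sum_const, Finset.card_univ, Fintype.card_prod, ZMod.card]
        simp; ring
  have hRd : ∀ j, R j j = 1 - P j j := by
    intro j; rw [hR, Matrix.sub_apply, Matrix.one_apply_eq]
  have hRsum : ∑ j, R j j ≥ (p : ℝ) ^ 4 + 1 - (p : ℝ) ^ 2 := by
    simp_rw [hRd]
    rw [Finset.sum_sub_distrib, Finset.sum_const, Finset.card_univ, Fintype.card_option]
    simp only [Fintype.card_pi, ZMod.card, Finset.prod_const, Finset.card_univ, Fintype.card_fin,
      nsmul_eq_mul, mul_one]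
    push_cast
    linarith
  have hfro : ∑ i, ∑ j, (diagonal (av p) - P * diagonal (av p)) i j ^ 2 =
      ∑ j, av p j ^ 2 * R j j := by
    have e : diagonal (av p) - P * diagonal (av p) = R * diagonal (av p) := by
      rw [hR, Matrix.sub_mul, Matrix.one_mul]
    rw [e, Finset.sum_comm]
    apply Finset.sum_congr rfl
    intro j _
    rw [← diag_idem hRT hRR j, Finset.mul_sum]
    apply Finset.sum_congr rfl
    intro i _
    rw [Matrix.mul_diagonal]; ring
  have hR0 : 1 / 2 ≤ R none none := by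
    have e0 := diag_idem hRT hRR none
    rw [Fintype.sum_option] at e0
    set T : Idx p → ℝ := fun i => ∑ c, tau p i c * X c none with hT
    have hPi : ∀ i, P i none = av p i * (s * sg (σ i)) * T i := by
      intro i
      rw [hP, Matrix.mul_apply, hT]
      simp only
      rw [Finset.mul_sum]
      apply Finset.sum_congr rfl
      intro c _
      rw [hBij]; ring
    have e1 : R none none = 1 - av p none * (s * sg (σ none) * T none) := by
      rw [hRd, hPi]; ring
    have e2 : ∑ a : Fin 4 → ZMod p, R (some a) none ^ 2 = s ^ 2 * ∑ a : Fin 4 → ZMod p, T (some a) ^ 2 := by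
      rw [Finset.mul_sum]
      apply Finset.sum_congr rfl
      intro a _
      have e3 : R (some a) none = - P (some a) none := by
        rw [hR, Matrix.sub_apply, Matrix.one_apply_ne (by simp)]; ring
      rw [e3, hPi]
      simp only [av]
      linear_combination (s ^ 2 * T (some a) ^ 2) * sg_sq (σ (some a))
    have e4 := tau_low p (fun c => X c none)
    have e5 : s ^ 2 * ((p : ℝ) ^ 3 * T none ^ 2) ≤ s ^ 2 * ∑ a : Fin 4 → ZMod p, T (some a) ^ 2 :=
      mul_le_mul_of_nonneg_left e4 (sq_nonneg _)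
    have e6 : (av p none * (s * sg (σ none) * T none)) ^ 2 = s ^ 2 * ((p : ℝ) ^ 3 * T none ^ 2) := by
      rw [← av_sq p]
      linear_combination (av p none ^ 2 * s ^ 2 * T none ^ 2) * sg_sq (σ none)
    rw [e2] at e0
    rw [e1] at e0 ⊢
    generalize av p none * (s * sg (σ none) * T none) = z at *
    nlinarith [sq_nonneg (1 - 2 * z)]
  have hR1 : R none none ≤ 1 := diag_le_one hRT hRR none
  rw [hfro]
  rw [Fintype.sum_option] at hRsum ⊢
  rw [av_sq]
  have e7 : ∑ a : Fin 4 → ZMod p, av p (some a) ^ 2 * R (some a) (some a) =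
      ∑ a : Fin 4 → ZMod p, R (some a) (some a) := by
    apply Finset.sum_congr rfl; intro a _; simp [av]
  rw [e7]
  have hp3 : 0 < (p : ℝ) ^ 3 := by positivity
  have e8 : (p : ℝ) ^ 3 * (1 / 2) ≤ (p : ℝ) ^ 3 * R none none := mul_le_mul_of_nonneg_left hR0 hp3.le
  have e9 : 4 * (p : ℝ) ^ 2 ≤ (p : ℝ) ^ 3 := by nlinarith [sq_nonneg (p : ℝ)]
  linarith

lemma best_le : bestErr 1 (diagonal (av p)) ≤ (p : ℝ) ^ 2 := by
  have hbdd : BddBelow (Set.range fun Z : {Z : Matrix (Idx p) (Idx p) ℝ // Z.rank ≤ 1} =>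
      frob (diagonal (av p) - Z.1)) :=
    ⟨0, by rintro _ ⟨Z, rfl⟩; exact Real.sqrt_nonneg _⟩
  set Z0 : Matrix (Idx p) (Idx p) ℝ := vecMulVec (Pi.single none (av p none)) (Pi.single none 1)
    with hZ0
  refine (ciInf_le hbdd ⟨Z0, rank_vecMulVec_le _ _⟩).trans ?_
  have e : diagonal (av p) - Z0 = diagonal (fun j : Idx p => if j = none then (0 : ℝ) else 1) := by
    ext i j
    rw [Matrix.sub_apply, hZ0, vecMulVec_apply]
    cases i with
    | none =>
      cases j with
      | none => simp
      | some b => simp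
    | some a =>
      cases j with
      | none => simp
      | some b =>
        by_cases hab : a = b
        · subst hab; simp [av]
        · have : (some a : Idx p) ≠ some b := fun h => hab (Option.some.inj h)
          simp [diagonal_apply_ne _ this]
  unfold frob
  simp only
  rw [e]
  have e2 : ∑ i : Idx p, ∑ j : Idx p,
      diagonal (fun j : Idx p => if j = none then (0 : ℝ) else 1) i j ^ 2 = ((p : ℝ) ^ 2) ^ 2 := by
    have : ∀ i : Idx p, ∑ j : Idx p,
        diagonal (fun j : Idx p => if j = none then (0 : ℝ) else 1) i j ^ 2 =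
        if i = none then 0 else 1 := by
      intro i
      rw [Finset.sum_eq_single i]
      · rw [diagonal_apply_eq]; split_ifs <;> norm_num
      · intro j _ hji
        rw [diagonal_apply_ne _ hji.symm]; norm_num
      · simp
    rw [Finset.sum_congr rfl (fun i _ => this i), Fintype.sum_option]
    simp [ZMod.card]; ring
  rw [e2, Real.sqrt_sq (by positivity)]

noncomputable def st : Option (Fin 199) → ℝ
  | none => 0
  | some _ => √(200 / 199)

lemma nsq_Om (s : ℝ) (σ : Idx p → Bool) (x : Idx p → ℝ) :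
    nsq ((Om p s σ)ᵀ *ᵥ x) = s ^ 2 * len univ (fun j c => x j * tau p j c) σ := by
  unfold nsq len
  rw [Finset.mul_sum]
  apply Finset.sum_congr rfl
  intro c _
  have : ((Om p s σ)ᵀ *ᵥ x) c = s * lin univ (fun j => x j * tau p j c) σ := by
    unfold lin
    rw [Matrix.mulVec, dotProduct, Finset.mul_sum]
    apply Finset.sum_congr rfl
    intro j _
    change s * sg (σ j) * tau p j c * x j = _
    ring
  rw [this]; ring

lemma sumv (x : Idx p → ℝ) : ∑ j, ∑ c, (x j * tau p j c) ^ 2 = nsq x := by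
  unfold nsq
  apply Finset.sum_congr rfl
  intro j _
  simp_rw [mul_pow]
  rw [← Finset.mul_sum, tau_norm, mul_one]

lemma st_sum : ∑ t : Option (Fin 199), st t ^ 2 = 200 := by
  rw [Fintype.sum_option]
  simp only [st]
  rw [Real.sq_sqrt (by norm_num)]
  simp; norm_num

noncomputable def OmW (w : (Idx p → Bool) × Option (Fin 199)) : Matrix (Idx p) (Col p) ℝ :=
  Om p (st w.2) w.1

lemma osi (hp : 16000000 ≤ p) {α : ℝ} (hα : α ≤ 1) : IsOSI (OmW p) 1 α (1 / 100) := by
  classical
  have hpR : (16000000 : ℝ) ≤ p := by exact_mod_cast hp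
  have hN : (0 : ℝ) < Fintype.card (Idx p → Bool) := by exact_mod_cast Fintype.card_pos
  have hcardW : (Fintype.card ((Idx p → Bool) × Option (Fin 199)) : ℝ) =
      Fintype.card (Idx p → Bool) * 200 := by
    rw [Fintype.card_prod, Fintype.card_option, Fintype.card_fin]; push_cast; norm_num
  constructor
  · intro x
    rw [div_eq_iff (by rw [hcardW]; positivity), hcardW, Fintype.sum_prod_type]
    have : ∀ σ : Idx p → Bool, ∑ t, nsq ((OmW p (σ, t))ᵀ *ᵥ x) =
        200 * len univ (fun j c => x j * tau p j c) σ := by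
      intro σ
      unfold OmW
      simp only
      simp_rw [nsq_Om]
      rw [← Finset.sum_mul, st_sum]
    rw [Finset.sum_congr rfl (fun σ _ => this σ), ← Finset.mul_sum, len_mean, sumv]
    ring
  · intro V hV
    obtain ⟨⟨x0, hx0V⟩, hx0, hspan⟩ := finrank_eq_one_iff'.mp hV
    have hx0' : x0 ≠ 0 := fun h => hx0 (Subtype.ext h)
    have hXpos : 0 < nsq x0 := by
      obtain ⟨j, hj⟩ := Function.ne_iff.mp hx0'
      have h1 : x0 j ^ 2 ≤ nsq x0 :=
        Finset.single_le_sum (f := fun i => x0 i ^ 2) (fun _ _ => sq_nonneg _) (Finset.mem_univ j)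
      have h2 : 0 < x0 j ^ 2 := by
        have : x0 j ≠ 0 := hj
        positivity
      linarith
    have hgood : ∀ w, nsq x0 ≤ nsq ((OmW p w)ᵀ *ᵥ x0) →
        ∀ x ∈ V, α * nsq x ≤ nsq ((OmW p w)ᵀ *ᵥ x) := by
      intro w hw x hx
      obtain ⟨c, hc⟩ := hspan ⟨x, hx⟩
      have hc' : c • x0 = x := congrArg Subtype.val hc
      rw [← hc', Matrix.mulVec_smul]
      have hs : ∀ {ι : Type} [Fintype ι] (y : ι → ℝ), nsq (c • y) = c ^ 2 * nsq y := by
        intro ι _ y
        unfold nsq
        rw [Finset.mul_sum]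
        apply Finset.sum_congr rfl; intro i _
        simp only [Pi.smul_apply, smul_eq_mul]; ring
      rw [hs, hs]
      have h1 : c ^ 2 * nsq x0 ≤ c ^ 2 * nsq ((OmW p w)ᵀ *ᵥ x0) :=
        mul_le_mul_of_nonneg_left hw (sq_nonneg _)
      have h2 : 0 ≤ c ^ 2 * nsq x0 := by positivity
      nlinarith
    set q : (Idx p → Bool) → ℝ := fun σ => len univ (fun j c => x0 j * tau p j c) σ - nsq x0 with hq
    have hfour : ∑ σ, q σ ^ 2 ≤ Fintype.card (Idx p → Bool) * (2 * (1 / p) * (nsq x0) ^ 2) := by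
      have := fourth univ (fun j c => x0 j * tau p j c) x0 (M := 1 / p) (by
        intro i j hij
        have h1 := tau_coh p (by omega) hij
        have h2 : ∑ c, x0 i * tau p i c * (x0 j * tau p j c) =
            x0 i * x0 j * ∑ c, tau p i c * tau p j c := by
          rw [Finset.mul_sum]
          apply Finset.sum_congr rfl; intro c _; ring
        rw [h2, mul_pow, mul_pow]
        have h3 : 0 ≤ x0 i ^ 2 * x0 j ^ 2 := by positivity
        nlinarith) (by positivity)
      simp_rw [sumv] at this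
      exact this
    have hpt : ∀ (σ : Idx p → Bool) (t : Option (Fin 199)),
        (if t = none then 0 else 1 - 40000 * q σ ^ 2 / nsq x0 ^ 2) ≤
        (if (∀ x ∈ V, α * nsq x ≤ nsq ((OmW p (σ, t))ᵀ *ᵥ x)) then (1 : ℝ) else 0) := by
      intro σ t
      cases t with
      | none => rw [if_pos rfl]; split_ifs <;> norm_num
      | some t =>
        rw [if_neg (by simp)]
        have hnn : 0 ≤ 40000 * q σ ^ 2 / nsq x0 ^ 2 := by positivity
        split_ifs with h
        · linarith
        · have h5 : ¬ nsq x0 ≤ nsq ((OmW p (σ, some t))ᵀ *ᵥ x0) := fun h' => h (hgood _ h')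
          push Not at h5
          unfold OmW at h5
          simp only at h5
          rw [nsq_Om] at h5
          simp only [st] at h5
          rw [Real.sq_sqrt (by norm_num)] at h5
          have h6 : q σ < -(nsq x0 / 200) := by
            simp only [hq]; linarith
          have h7 : (nsq x0 / 200) ^ 2 ≤ q σ ^ 2 := by nlinarith
          have h8 : 1 ≤ 40000 * q σ ^ 2 / nsq x0 ^ 2 := by
            rw [le_div_iff₀ (by positivity)]
            nlinarith
          linarith
    have hsum : ∑ σ : Idx p → Bool, ∑ t : Option (Fin 199),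
        (if t = none then (0 : ℝ) else 1 - 40000 * q σ ^ 2 / nsq x0 ^ 2) ≤
        (Nat.card {w : (Idx p → Bool) × Option (Fin 199) //
          ∀ x ∈ V, α * nsq x ≤ nsq ((OmW p w)ᵀ *ᵥ x)} : ℝ) := by
      rw [Nat.card_eq_fintype_card, Fintype.card_subtype, Finset.card_filter]
      push_cast
      rw [Fintype.sum_prod_type]
      exact Finset.sum_le_sum fun σ _ => Finset.sum_le_sum fun t _ => hpt σ t
    refine le_trans ?_ hsum
    have hin : ∀ σ : Idx p → Bool, ∑ t : Option (Fin 199),
        (if t = none then (0 : ℝ) else 1 - 40000 * q σ ^ 2 / nsq x0 ^ 2) =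
        199 - (199 * 40000 / nsq x0 ^ 2) * q σ ^ 2 := by
      intro σ
      rw [Fintype.sum_option]
      simp only [if_true, reduceCtorEq, if_false, Finset.sum_const, Finset.card_univ,
        Fintype.card_fin, nsmul_eq_mul]
      push_cast
      ring
    rw [Finset.sum_congr rfl (fun σ _ => hin σ), Finset.sum_sub_distrib, ← Finset.mul_sum,
      Finset.sum_const, Finset.card_univ, nsmul_eq_mul, hcardW]
    have h9 : (199 * 40000 / nsq x0 ^ 2) * ∑ σ, q σ ^ 2 ≤ Fintype.card (Idx p → Bool) * 1 := by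
      calc (199 * 40000 / nsq x0 ^ 2) * ∑ σ, q σ ^ 2
          ≤ (199 * 40000 / nsq x0 ^ 2) *
            (Fintype.card (Idx p → Bool) * (2 * (1 / p) * (nsq x0) ^ 2)) :=
            mul_le_mul_of_nonneg_left hfour (by positivity)
        _ = Fintype.card (Idx p → Bool) * (199 * 80000 / p) := by
            field_simp; ring
        _ ≤ Fintype.card (Idx p → Bool) * 1 := by
            apply mul_le_mul_of_nonneg_left _ hN.le
            rw [div_le_one (by linarith)]; linarith
    linarith

/-- For every constant `C` there are `ε ∈ (0,1)`, an OSI with dimension `1`, injectivity `1 - ε` and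
failure probability `0.01`, and a matrix `A`, such that the relative error bound with constant `C`
fails with probability one. -/
theorem result : ∀ C : ℝ, ∃ ε : ℝ, 0 < ε ∧ ε < 1 ∧
    ∃ (W d k : Type) (_ : Fintype W) (_ : Nonempty W) (_ : Fintype d) (_ : Fintype k)
      (Ω : W → Matrix d k ℝ) (A : Matrix d d ℝ), IsOSI Ω 1 (1 - ε) (1 / 100) ∧
      ∀ w, ∀ X : Matrix k d ℝ, IsPinv (A * Ω w) X →
        (1 + C * ε) * bestErr 1 A < frob (A - (A * Ω w) * X * A) := by
  intro C
  obtain ⟨p, hp, hprime⟩ := Nat.exists_infinite_primes 16000000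
  haveI : Fact p.Prime := ⟨hprime⟩
  have hpR : (16000000 : ℝ) ≤ p := by exact_mod_cast hp
  have hp0 : (0 : ℝ) < p := by linarith
  set η : ℝ := 1 / (16 * p) with hη
  have hη0 : 0 < η := by positivity
  set ε : ℝ := min (1 / 2) (η / (|C| + 1)) with hε
  have hC1 : 0 < |C| + 1 := by positivity
  have hε0 : 0 < ε := lt_min (by norm_num) (by positivity)
  have hε1 : ε < 1 := (min_le_left _ _).trans_lt (by norm_num)
  have hCε : C * ε ≤ η := by
    have h1 : ε ≤ η / (|C| + 1) := min_le_right _ _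
    have h2 : ε * (|C| + 1) ≤ η := by rwa [le_div_iff₀ hC1] at h1
    have h3 : C * ε ≤ |C| * ε := mul_le_mul_of_nonneg_right (le_abs_self C) hε0.le
    nlinarith
  refine ⟨ε, hε0, hε1, (Idx p → Bool) × Option (Fin 199), Idx p, Col p, inferInstance, inferInstance,
    inferInstance, inferInstance, OmW p, diagonal (av p), osi p hp (by linarith), ?_⟩
  intro w X hX
  have h1 := det_bound p (by omega) w.1 (st w.2) X hX
  have h2 := best_le p
  have h0 : 0 ≤ bestErr 1 (diagonal (av p)) := Real.iInf_nonneg fun Z => Real.sqrt_nonneg _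
  have h3 : (1 + C * ε) * bestErr 1 (diagonal (av p)) ≤ (1 + η) * (p : ℝ) ^ 2 := by
    calc (1 + C * ε) * bestErr 1 (diagonal (av p)) ≤ (1 + η) * bestErr 1 (diagonal (av p)) :=
          mul_le_mul_of_nonneg_right (by linarith) h0
      _ ≤ (1 + η) * (p : ℝ) ^ 2 := mul_le_mul_of_nonneg_left h2 (by linarith)
  refine h3.trans_lt ?_
  unfold frob
  apply Real.lt_sqrt_of_sq_lt
  refine lt_of_lt_of_le ?_ h1
  have h4 : η * p = 1 / 16 := by rw [hη]; field_simp
  have h5 : ((1 + η) * (p : ℝ) ^ 2) ^ 2 = (p : ℝ) ^ 4 + 2 * (η * p) * (p : ℝ) ^ 3 + (η * p) ^ 2 * (p : ℝ) ^ 2 := by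
    ring
  rw [h5, h4]
  have h6 : (p : ℝ) ^ 2 ≤ (p : ℝ) ^ 3 := by nlinarith [sq_nonneg (p : ℝ)]
  have h7 : 0 < (p : ℝ) ^ 3 := by positivity
  nlinarith

end Pool.Agent.Results.MP_082b65_an.NoRelativeError
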